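import Pool.Agent.H60.LQ.Two
import Pool.Agent.H60.LQ.SUM2

/-!
# LQ0, row LVB3: level two, for spread families
-/

set_option autoImplicit false

namespace Pool.LQ

open Finset Real
open Pool.Agent.H49.Ent Pool.Agent.H32.Dense Pool.KTH
open Pool.Agent.H24.KTH (dsv lvv lev cap Yf kp)

namespace LVB3

lemma log_two_pow (J : ℕ) : Real.log ((2 ^ J : ℕ) : ℝ) = lm J := by
  unfold lm
  push_cast
  rw [Real.log_pow]

/-- Level one plus and spread for one derived family. -/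
lemma plus_spr {d N : ℕ} {a Λ k B₀ ε : ℝ} (hS : SBPStmt)
    (h : ∀ (J : ℕ) (Ω : Type) [Fintype Ω] (ζ : Type) (p : Ω → ℝ) (Z : Ω → ζ) (v : Ω → Fin d → ℤ)
      (u : Ω → Fin d → ℝ) (τ : Ω → ℤ), IsFam (2 ^ J) p Z v u τ →
      ∃ (Ω' : Type) (_ : Fintype Ω') (q : Ω' → ℝ) (pr : Ω' → Ω) (w : Ω' → ℕ),
      (∀ ω, 0 ≤ q ω) ∧ Marg q p pr ∧ (∀ ω, w ω ≤ N) ∧
      CH p v Z ≤ a * (Sb (2 ^ J) p Z v u τ - J * Real.log 2) -
        k * ((1 - Ex q (fun ω => (w ω : ℝ)) / N) * (J * Real.log 2)) -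
        (a - 1) * CH q (fun ω => cap J (lev J N (w ω)) (v (pr ω))) (fun ω => (w ω, Z (pr ω))) +
        Λ * Kf (2 ^ J) p (bv Z v) τ + B₀ + ε * (J * Real.log 2))
    {J : ℕ} (G : Fm d J) {μ τ : ℝ} (hG : G.Spr N μ τ) :
    ∃ e h : ℝ, 0 ≤ h ∧ G.L ≤ a * (G.sb - lm J) - k * (lm J - e) - (a - 1) * h +
      Λ * (lm J - CH G.p G.τ (fun w => (G.v w, G.Z w))) + B₀ + ε * lm J ∧ μ * e - τ ≤ h := by
  obtain ⟨Ω', hf, q, pr, w, hq, hM, hw, hle⟩ := h J G.Ω G.ζ G.p G.Z G.v G.u G.τ G.isFam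
  have h2 := (hS d J G.Ω G.ζ G.p G.Z G.v G.u G.τ G.isFam).1
  have h3 : Sb (2 ^ J) G.p G.Z G.v G.u G.τ = G.sb := h2
  have h4 : Kf (2 ^ J) G.p (bv G.Z G.v) G.τ =
      lm J - CH G.p G.τ (fun w => (G.v w, G.Z w)) := by
    unfold Kf
    rw [log_two_pow]
    rfl
  rw [h3, h4] at hle
  refine ⟨Ex q (fun ω => (w ω : ℝ)) / N * lm J,
    CH q (fun ω => cap J (lev J N (w ω)) (G.v (pr ω))) (fun ω => (w ω, G.Z (pr ω))),
    CH_nonneg hq _ _, ?_, hG Ω' q pr w hq hM hw⟩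
  have h6 : G.L = CH G.p G.v G.Z := rfl
  rw [h6]
  have h7 : lm J = J * Real.log 2 := rfl
  rw [h7] at *
  have h8 : k * ((1 - Ex q (fun ω => (w ω : ℝ)) / N) * (J * Real.log 2)) =
      k * (J * Real.log 2 - Ex q (fun ω => (w ω : ℝ)) / N * (J * Real.log 2)) := by ring
  rw [h8] at hle
  exact hle

end LVB3

open SUM2 LVB3

/-- LVB3: level two, for spread families. -/
theorem lvb3 (hCFG : CFG3Stmt) (hSPL : SPL3Stmt) (hSPI : SPI3Stmt) (hARB : ARB3Stmt)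
    (hALL : ALL2Stmt) (hALS : ALS2Stmt) (hAIL : AIL2Stmt) (hAIL3 : AIL3Stmt) (hAIS : AIS2Stmt)
    (hAXI : AXI2Stmt) (hAYY : AYY2Stmt) (hACO : ACO3Stmt) (hDRV : DRV2Stmt) (hPAR : PAR2Stmt)
    (hETA : ETA2Stmt) (hUFC : UFC2Stmt) (hSBP : SBPStmt) : LVB3Stmt := by
  intro d a Λ μ hd ha1 ha2 hΛ hμ hPA ε hε
  obtain ⟨CA, hCA, hA⟩ := hARB a Λ μ ha1 ha2 hΛ hμ
  obtain ⟨C₀, hC₀, hcfg⟩ := hCFG
  have hε' : 0 < ε / (CA + 1) := by positivity
  obtain ⟨N, hN, B₀, hP⟩ := hPA _ hε'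
  obtain ⟨CS, hCS, hS⟩ := hSPL d hd N hN _ hε'
  obtain ⟨CI, hCI, hI⟩ := hSPI d N hN
  obtain ⟨C1, p1, r1⟩ := esk_of_ek (hALL d hd) _ hε'
  obtain ⟨C2, p2, r2⟩ := hALS d hd _ hε'
  obtain ⟨C3, p3, r3⟩ := hAIL d hd _ hε'
  obtain ⟨C4, p4, r4⟩ := esk_of_ek (hAIS d) _ hε'
  obtain ⟨C5, p5, r5⟩ := esk_of_ek (hAXI d hd).1 _ hε'
  obtain ⟨C6, p6, r6⟩ := (hAXI d hd).2 _ hε'
  obtain ⟨C7, p7, r7⟩ := esk_of_ek (hAYY d) _ hε'
  obtain ⟨C8, p8, r8⟩ := esk_of_ek (hDRV d).1 _ hε'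
  obtain ⟨C9, p9, r9⟩ := esk_of_ek (hDRV d).2 _ hε'
  obtain ⟨C10, p10, r10⟩ := esk_of_eg (hPAR d hd).1 _ hε'
  obtain ⟨C11, p11, r11⟩ := esk_of_eg (hPAR d hd).2 _ hε'
  obtain ⟨C12, p12, r12⟩ := esk_of_eg (hETA d hd) _ hε'
  obtain ⟨C13, p13, r13⟩ := hACO d hd _ hε'
  obtain ⟨C14, p14, r14⟩ := esk_of_ek (hUFC d).2.2.2.2 _ hε'
  obtain ⟨C15, p15, r15⟩ := hAIL3 d hd _ hε'
  obtain ⟨C, hC⟩ : ∃ C : ℝ, C = C1 + C2 + C3 + C4 + C5 + C6 + C7 + C8 + C9 + C10 + C11 + C12 +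
    C13 + C14 + C15 + CS + CI + |B₀| := ⟨_, rfl⟩
  have hB0 := abs_nonneg B₀
  have hB1 := le_abs_self B₀
  have hC0 : 0 ≤ C := by rw [hC]; positivity
  refine ⟨N, hN, CA * (C * (C₀ + 1)), CA * (C * C₀), by positivity, ?_⟩
  intro J G τ hGS
  obtain ⟨F, hF, hFy, hFg, hFS⟩ := hcfg d J G
  obtain ⟨K, hK⟩ : ∃ K : ℝ, K = Kf (2 ^ J) G.p (bv G.Z G.v) G.τ := ⟨_, rfl⟩
  obtain ⟨g, hg⟩ : ∃ g : ℝ, g = Gf (2 ^ J) G.p (bv G.Z G.v) G.τ := ⟨_, rfl⟩
  rw [← hK, ← hg] at hF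
  rw [← hg] at hFg
  rw [← hK, ← hg, ← hFy]
  have hG := hF.G0
  have hlm : 0 ≤ lm J := by unfold lm; positivity
  have hq := F.hq
  obtain ⟨E, hE⟩ : ∃ E : ℝ, E = C * (C₀ * (g + 1) + 1) + ε / (CA + 1) * lm J := ⟨_, rfl⟩
  have hE0 : 0 ≤ E := by rw [hE]; positivity
  have s1 := r1 J F G.L G.sb K _ hF
  have s2 := r2 J F G.L G.sb K _ hF
  have s3 := r3 J F G.L G.sb K _ hF
  have s4 := r4 J F G.L G.sb K _ hF
  have s5 := r5 J F G.L G.sb K _ hF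
  have s6 := r6 J F G.L G.sb K _ hF
  have s7 := r7 J F G.L G.sb K _ hF
  have s8 := r8 J F G.L G.sb K _ hF
  have s9 := r9 J F G.L G.sb K _ hF
  have s10 := r10 J F G.L G.sb K _ hF
  have s11 := r11 J F G.L G.sb K _ hF
  have s12 := r12 J F G.L G.sb K _ hF
  have s13 := r13 J F G.L G.sb K _ hF
  have s14 := r14 J F G.L G.sb K _ hF
  have s15 := r15 J F G.L G.sb K _ hF
  have sS := hS J F G.L G.sb K _ μ τ hF hFg (hFS N μ τ hGS)
  have sI := hI J F μ τ (hFS N μ τ hGS)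
  obtain ⟨eL, hL, uL0, uL1, uL2⟩ := plus_spr hSBP hP F.FL sS
  obtain ⟨eI, hhI, uI0, uI1, uI2⟩ := plus_spr hSBP hP F.FI sI
  have hc : ∀ c : ℝ, c ≤ C → c * (C₀ * (g + 1) + 1) + ε / (CA + 1) * lm J ≤ E := by
    intro c hc
    rw [hE]
    have : c * (C₀ * (g + 1) + 1) ≤ C * (C₀ * (g + 1) + 1) :=
      mul_le_mul_of_nonneg_right hc (by linarith only [hG])
    linarith only [this]
  have c1 := hc C1 (by rw [hC]; linarith only [p1, p2, p3, p4, p5, p6, p7, p8, p9, p10, p11, p12, p13,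
    p14, p15, hCS, hCI, hB0])
  have c2 := hc C2 (by rw [hC]; linarith only [p1, p2, p3, p4, p5, p6, p7, p8, p9, p10, p11, p12, p13,
    p14, p15, hCS, hCI, hB0])
  have c3 := hc C3 (by rw [hC]; linarith only [p1, p2, p3, p4, p5, p6, p7, p8, p9, p10, p11, p12, p13,
    p14, p15, hCS, hCI, hB0])
  have c4 := hc C4 (by rw [hC]; linarith only [p1, p2, p3, p4, p5, p6, p7, p8, p9, p10, p11, p12, p13,
    p14, p15, hCS, hCI, hB0])
  have c5 := hc C5 (by rw [hC]; linarith only [p1, p2, p3, p4, p5, p6, p7, p8, p9, p10, p11, p12, p13,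
    p14, p15, hCS, hCI, hB0])
  have c6 := hc C6 (by rw [hC]; linarith only [p1, p2, p3, p4, p5, p6, p7, p8, p9, p10, p11, p12, p13,
    p14, p15, hCS, hCI, hB0])
  have c7 := hc C7 (by rw [hC]; linarith only [p1, p2, p3, p4, p5, p6, p7, p8, p9, p10, p11, p12, p13,
    p14, p15, hCS, hCI, hB0])
  have c8 := hc C8 (by rw [hC]; linarith only [p1, p2, p3, p4, p5, p6, p7, p8, p9, p10, p11, p12, p13,
    p14, p15, hCS, hCI, hB0])
  have c9 := hc C9 (by rw [hC]; linarith only [p1, p2, p3, p4, p5, p6, p7, p8, p9, p10, p11, p12, p13,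
    p14, p15, hCS, hCI, hB0])
  have c10 := hc C10 (by rw [hC]; linarith only [p1, p2, p3, p4, p5, p6, p7, p8, p9, p10, p11, p12, p13,
    p14, p15, hCS, hCI, hB0])
  have c11 := hc C11 (by rw [hC]; linarith only [p1, p2, p3, p4, p5, p6, p7, p8, p9, p10, p11, p12, p13,
    p14, p15, hCS, hCI, hB0])
  have c12 := hc C12 (by rw [hC]; linarith only [p1, p2, p3, p4, p5, p6, p7, p8, p9, p10, p11, p12, p13,
    p14, p15, hCS, hCI, hB0])
  have c13 := hc C13 (by rw [hC]; linarith only [p1, p2, p3, p4, p5, p6, p7, p8, p9, p10, p11, p12, p13,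
    p14, p15, hCS, hCI, hB0])
  have c14 := hc C14 (by rw [hC]; linarith only [p1, p2, p3, p4, p5, p6, p7, p8, p9, p10, p11, p12, p13,
    p14, p15, hCS, hCI, hB0])
  have c15 := hc C15 (by rw [hC]; linarith only [p1, p2, p3, p4, p5, p6, p7, p8, p9, p10, p11, p12, p13,
    p14, p15, hCS, hCI, hB0])
  have cS := hc CS (by rw [hC]; linarith only [p1, p2, p3, p4, p5, p6, p7, p8, p9, p10, p11, p12, p13,
    p14, p15, hCS, hCI, hB0])
  have cI := hc CI (by rw [hC]; linarith only [p1, p2, p3, p4, p5, p6, p7, p8, p9, p10, p11, p12, p13,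
    p14, p15, hCS, hCI, hB0])
  have cB := hc |B₀| (by rw [hC]; linarith only [p1, p2, p3, p4, p5, p6, p7, p8, p9, p10, p11, p12, p13,
    p14, p15, hCS, hCI, hB0])
  have hεl : 0 ≤ ε / (CA + 1) * lm J := by positivity
  have cB' : B₀ + ε / (CA + 1) * lm J ≤ E := by
    have : |B₀| * 1 ≤ |B₀| * (C₀ * (g + 1) + 1) :=
      mul_le_mul_of_nonneg_left (by linarith only [hG]) hB0
    linarith only [this, cB, hB1]
  have cI' : CI ≤ E := by
    have : CI * 1 ≤ CI * (C₀ * (g + 1) + 1) :=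
      mul_le_mul_of_nonneg_left (by linarith only [hG]) hCI
    linarith only [this, cI, hεl]
  have t15 : F.mh ≤ 2 * G.sb := by
    have h1 := CH_chain hq F.A F.B F.Z
    have h2 : CH F.q F.A (fun w => (F.B w, F.Z w)) ≤ CH F.q F.A F.Z :=
      CH_mono_cond hq (fun w w' _ _ e => (Prod.ext_iff.mp e).2)
    have h3 := hF.sA
    have h4 := hF.sB
    unfold Cf.mh
    linarith only [h1, h2, h3, h4]
  have t16 : F.rh ≤ lm J := by
    have h1 := CH_time_le hq F.h1 F.ht (fun w => (F.v₁ w, F.C₂ w, F.Z w))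
    rw [log_two_pow] at h1
    exact h1
  have t18 : F.qs ≤ lm J := by
    have h1 := CH_time_le hq F.h1 F.hs (fun w => (F.v₁ w, F.v₂ w, F.Z w))
    rw [log_two_pow] at h1
    exact h1
  have t17 : 0 ≤ F.et₁ := CH_nonneg hq _ _
  have hKL : KL F = lm J - CH F.FL.p F.FL.τ (fun w => (F.FL.v w, F.FL.Z w)) := rfl
  have hKI : KI F = lm J - CH F.FI.p F.FI.τ (fun w => (F.FI.v w, F.FI.Z w)) := rfl
  rw [← hKL] at uL1
  rw [← hKI] at uI1
  have key := hA G.L (lm J) G.sb F.y01 (gO F) F.xh F.et₁ F.FL.L F.FL.sb F.mh (KL F) F.qs F.y12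
    (gY F) F.yh F.et F.FI.L F.FI.sb F.xi (eta F) (KI F) F.rh K E F.ic F.iy eL hL eI hhI τ
    hE0 hF.K0 hlm (by linarith only [s1, c1]) (by linarith only [s2, c2])
    (by linarith only [s3, c3]) (by linarith only [s4, c4]) (by linarith only [s5, c5])
    (by linarith only [s6, c6]) (by linarith only [s7, c7]) (by linarith only [s8, c8])
    (by linarith only [s9, c9]) (by unfold gO; linarith only [s10, c10])
    (by unfold gY; linarith only [s11, c11]) (by linarith only [s12, c12])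
    (by linarith only [s14, c14]) t15 t16 t18 t17
    (by linarith only [s13, c13]) (by linarith only [s15, c15]) (by linarith only [uL1, cB']) uL0
    (by linarith only [uL2, cS]) (by linarith only [uI1, cB']) uI0
    (by linarith only [uI2, cI'])
  have hCE : CA * E ≤ CA * (C * (C₀ + 1)) + CA * (C * C₀) * g + ε * lm J := by
    have h1 : CA * (ε / (CA + 1)) ≤ ε := by
      rw [mul_div_assoc', div_le_iff₀ (by linarith only [hCA])]
      linarith only [hε]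
    have h2 := mul_le_mul_of_nonneg_right h1 hlm
    rw [hE]
    linarith only [h2]
  unfold Two at key ⊢
  linarith only [key, hCE]

end Pool.LQ
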